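import Pool.Agent.LSG.StmtsC

/-!
# Squad LSG (MP_005a41_gt), row TVF: a continuous functional which is affine along a line
-/

set_option autoImplicit false

open MeasureTheory Set Topology Filter
open scoped BigOperators Pointwise

namespace Pool.Agent.LSG.H7

section

variable {V : Type} [AddCommGroup V] [Module ℝ V] [TopologicalSpace V]
  [IsTopologicalAddGroup V] [ContinuousSMul ℝ V]

/-- small balanced neighbourhoods -/
theorem nb [T1Space V] (x : V) (hx : x ≠ 0) : ∃ U : Set V, U ∈ 𝓝 (0 : V) ∧ Balanced ℝ U ∧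
    ∀ a ∈ U, ∀ b ∈ U, ∀ c ∈ U, ∀ d ∈ U, ∀ s : ℝ, a + b + c + d = s • x → |s| < 1 := by
  have h0 : ({x}ᶜ : Set V) ∈ 𝓝 (0 : V) := isOpen_compl_singleton.mem_nhds (by
    simpa using hx.symm)
  have h1 : balancedCore ℝ ({x}ᶜ : Set V) ∈ 𝓝 (0 : V) := balancedCore_mem_nhds_zero h0
  obtain ⟨W, hW, hW4⟩ := exists_nhds_zero_quarter h1
  refine ⟨balancedCore ℝ W, balancedCore_mem_nhds_zero hW, balancedCore_balanced W, ?_⟩
  intro a ha b hb c hc d hd s hs
  by_contra hlt
  rw [not_lt] at hlt
  have h2 : s • x ∈ balancedCore ℝ ({x}ᶜ : Set V) := by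
    rw [← hs]
    exact hW4 (balancedCore_subset _ ha) (balancedCore_subset _ hb) (balancedCore_subset _ hc)
      (balancedCore_subset _ hd)
  have hs0 : s ≠ 0 := by
    intro h
    rw [h] at hlt
    norm_num at hlt
  have h3 : s⁻¹ • (s • x) ∈ balancedCore ℝ ({x}ᶜ : Set V) := by
    refine (balancedCore_balanced _).smul_mem ?_ h2
    rw [norm_inv, Real.norm_eq_abs]
    exact inv_le_one_of_one_le₀ hlt
  rw [smul_smul, inv_mul_cancel₀ hs0, one_smul] at h3
  exact balancedCore_subset _ h3 rfl

/-- the local functional -/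
theorem loc [TopologicalSpace.MetrizableSpace V] (x : V) (hx : x ≠ 0) :
    ∃ P Q : V → ℝ, Continuous P ∧ Continuous Q ∧ 0 < P 0 ∧
      (∀ (v : V) (t : ℝ), P (v + t • x) = P v) ∧
      (∀ (v : V) (t : ℝ), Q (v + t • x) = Q v + t * P v) := by
  obtain ⟨U, hU, hUb, hU4⟩ := nb x hx
  have hneg : ∀ a ∈ U, -a ∈ U := fun a ha => by
    have := hUb.neg_mem_iff (x := a)
    exact this.2 ha
  obtain ⟨f, hf0, hf1, hf⟩ := exists_continuous_zero_one_of_isClosed
    (s := (interior U)ᶜ) (t := {(0 : V)}) isOpen_interior.isClosed_compl isClosed_singleton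
    (by
      rw [disjoint_singleton_right]
      intro h
      exact h (mem_interior_iff_mem_nhds.2 hU))
  have hfU : ∀ v, f v ≠ 0 → v ∈ U := by
    intro v hv
    by_contra hvU
    exact hv (hf0 (fun h => hvU (interior_subset h)))
  -- local bound
  have hloc : ∀ v₀ : V, ∃ s₀ : ℝ, ∀ v ∈ (fun v : V => v - v₀) ⁻¹' U, ∀ s : ℝ,
      s ∉ Icc (s₀ - 1) (s₀ + 1) → f (v - s • x) = 0 := by
    intro v₀
    by_cases h : ∃ v₁ ∈ (fun v : V => v - v₀) ⁻¹' U, ∃ s₀ : ℝ, f (v₁ - s₀ • x) ≠ 0
    · obtain ⟨v₁, hv₁, s₀, hs₀⟩ := h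
      refine ⟨s₀, fun v hv s hs => ?_⟩
      by_contra hne
      apply hs
      have h1 : v - v₀ ∈ U := hv
      have h2 : -(v₁ - v₀) ∈ U := hneg _ hv₁
      have h3 : -(v - s • x) ∈ U := hneg _ (hfU _ hne)
      have h4 : v₁ - s₀ • x ∈ U := hfU _ hs₀
      have h5 := hU4 _ h1 _ h2 _ h3 _ h4 (s - s₀) (by
        rw [sub_smul]
        abel)
      rw [abs_lt] at h5
      constructor <;> linarith [h5.1, h5.2]
    · refine ⟨0, fun v hv s _ => ?_⟩
      by_contra hne
      exact h ⟨v, hv, s, hne⟩
  have hnb : ∀ v₀ : V, (fun v : V => v - v₀) ⁻¹' U ∈ 𝓝 v₀ := by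
    intro v₀
    have hc : Continuous (fun v : V => v - v₀) := by fun_prop
    exact hc.continuousAt.preimage_mem_nhds (by simpa using hU)
  have hcont : ∀ g : ℝ → ℝ, Continuous g → Continuous (fun v : V => ∫ s, g s * f (v - s • x)) := by
    intro g hg
    rw [continuous_iff_continuousAt]
    intro v₀
    obtain ⟨s₀, hs₀⟩ := hloc v₀
    have := continuousOn_integral_of_compact_support (μ := (volume : Measure ℝ))
      (f := fun (v : V) (s : ℝ) => g s * f (v - s • x)) (s := (fun v : V => v - v₀) ⁻¹' U)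
      (k := Icc (s₀ - 1) (s₀ + 1)) isCompact_Icc (by
        apply Continuous.continuousOn
        show Continuous (fun p : V × ℝ => g p.2 * f (p.1 - p.2 • x))
        fun_prop) (by
        intro v s hv hs
        show g s * f (v - s • x) = 0
        rw [hs₀ v hv s hs, mul_zero])
    exact this.continuousAt (hnb v₀)
  have hint : ∀ (g : ℝ → ℝ), Continuous g → ∀ v : V,
      Integrable (fun s : ℝ => g s * f (v - s • x)) := by
    intro g hg v
    obtain ⟨s₀, hs₀⟩ := hloc v
    refine Continuous.integrable_of_hasCompactSupport (by fun_prop) ?_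
    refine HasCompactSupport.intro (K := Icc (s₀ - 1) (s₀ + 1)) isCompact_Icc ?_
    intro s hs
    rw [hs₀ v (mem_of_mem_nhds (hnb v)) s hs, mul_zero]
  refine ⟨fun v => ∫ s : ℝ, f (v - s • x), fun v => ∫ s : ℝ, s * f (v - s • x),
    ?_, ?_, ?_, ?_, ?_⟩
  · simpa using hcont (fun _ => 1) continuous_const
  · exact hcont (fun s => s) continuous_id
  · show 0 < ∫ s : ℝ, f ((0 : V) - s • x)
    have hi : Integrable (fun s : ℝ => f ((0 : V) - s • x)) := by
      simpa using hint (fun _ => 1) continuous_const 0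
    have hc : Continuous (fun s : ℝ => f ((0 : V) - s • x)) := by fun_prop
    refine hc.integral_pos_of_hasCompactSupport_nonneg_nonzero ?_ ?_ (x := 0) ?_
    · obtain ⟨s₀, hs₀⟩ := hloc 0
      refine HasCompactSupport.intro (K := Icc (s₀ - 1) (s₀ + 1)) isCompact_Icc ?_
      intro s hs
      exact hs₀ 0 (mem_of_mem_nhds (hnb 0)) s hs
    · intro s
      exact (hf _).1
    · have := hf1 (mem_singleton (0 : V))
      simp only [zero_smul, sub_zero]
      rw [this]
      simp
  · intro v t
    show ∫ s : ℝ, f (v + t • x - s • x) = ∫ s : ℝ, f (v - s • x)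
    rw [← integral_sub_right_eq_self (fun s : ℝ => f (v - s • x)) t]
    congr 1
    ext s
    congr 1
    rw [sub_smul]
    abel
  · intro v t
    show ∫ s : ℝ, s * f (v + t • x - s • x)
      = (∫ s : ℝ, s * f (v - s • x)) + t * ∫ s : ℝ, f (v - s • x)
    rw [← integral_const_mul, ← integral_add (hint (fun s => s) continuous_id v) (by
      exact hint (fun _ => t) continuous_const v)]
    rw [← integral_sub_right_eq_self (fun s : ℝ => s * f (v - s • x) + t * f (v - s • x)) t]
    congr 1
    ext s
    have : v + t • x - s • x = v - (s - t) • x := by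
      rw [sub_smul]
      abel
    rw [this]
    ring

/-- quotients of first countable groups are metrizable -/
theorem qmet (W : Type) [AddCommGroup W] [TopologicalSpace W] [IsTopologicalAddGroup W]
    [FirstCountableTopology W] [T1Space W] : TopologicalSpace.MetrizableSpace W := by
  let _ : UniformSpace W := IsTopologicalAddGroup.rightUniformSpace W
  have h : (uniformity W).IsCountablyGenerated := comap.isCountablyGenerated _ _
  exact UniformSpace.metrizableSpace

end

/-- **TVF**. -/
theorem tvf : TvfStmt := by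
  intro V _ _ _ _ _ _ x hx
  obtain ⟨P, Q, hP, hQ, hP0, hPt, hQt⟩ := loc x hx
  let L : Submodule ℝ V := Submodule.span ℝ {x}
  have hLc : IsClosed (L : Set V) := Submodule.closed_of_finiteDimensional L
  let A : AddSubgroup V := L.toAddSubgroup
  have hAc : IsClosed (A : Set V) := hLc
  let π : V → V ⧸ A := fun v => (v : V ⧸ A)
  have hπc : Continuous π := continuous_quotient_mk'
  have hπo : IsOpenMap π := QuotientAddGroup.isOpenMap_coe
  have hπx : ∀ (v : V) (t : ℝ), π (v + t • x) = π v := by
    intro v t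
    show ((v + t • x : V) : V ⧸ A) = (v : V ⧸ A)
    rw [QuotientAddGroup.mk_add, (QuotientAddGroup.eq_zero_iff (t • x)).2, add_zero]
    exact Submodule.smul_mem _ _ (Submodule.mem_span_singleton_self x)
  have hπe : ∀ v w : V, π v = π w → ∃ t : ℝ, v = w + t • x := by
    intro v w h
    have h1 : -w + v ∈ A := (QuotientAddGroup.eq (s := A)).1 h.symm
    obtain ⟨t, ht⟩ := Submodule.mem_span_singleton.1 (show -w + v ∈ L from h1)
    exact ⟨t, by rw [ht]; abel⟩
  have hT1 : T1Space (V ⧸ A) := inferInstance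
  have hmet : TopologicalSpace.MetrizableSpace (V ⧸ A) := qmet _
  let _ : MetricSpace (V ⧸ A) := TopologicalSpace.metrizableSpaceMetric _
  -- the open sets
  let O : V → Set V := fun w => {v | 0 < P (v - w)}
  have hOo : ∀ w, IsOpen (O w) := fun w => isOpen_lt continuous_const (by fun_prop)
  have hOpre : ∀ w, π ⁻¹' (π '' (O w)) = O w := by
    intro w
    apply subset_antisymm
    · rintro v ⟨u, hu, huv⟩
      obtain ⟨t, rfl⟩ := hπe v u huv.symm
      show 0 < P (u + t • x - w)
      have : u + t • x - w = (u - w) + t • x := by abel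
      rw [this, hPt]
      exact hu
    · exact subset_preimage_image π (O w)
  obtain ⟨ρ, hρ⟩ := PartitionOfUnity.exists_isSubordinate (s := (univ : Set (V ⧸ A)))
    isClosed_univ (fun w : V => π '' (O w)) (fun w => hπo _ (hOo w)) (by
      intro q _
      obtain ⟨v, rfl⟩ := QuotientAddGroup.mk_surjective q
      refine mem_iUnion.2 ⟨v, v, ?_, rfl⟩
      show 0 < P (v - v)
      rw [sub_self]
      exact hP0)
  let σ : PartitionOfUnity V V univ :=
    { toFun := fun w => (ρ w).comp ⟨π, hπc⟩
      locallyFinite' := ρ.locallyFinite.preimage_continuous hπc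
      nonneg' := fun w v => ρ.nonneg w (π v)
      sum_eq_one' := fun v _ => ρ.sum_eq_one (mem_univ (π v))
      sum_le_one' := fun v => ρ.sum_le_one (π v) }
  have hσ : ∀ w v, σ w v = ρ w (π v) := fun w v => rfl
  have hσO : ∀ w, tsupport (σ w) ⊆ O w := by
    intro w
    have h1 : tsupport (σ w) ⊆ π ⁻¹' (tsupport (ρ w)) := by
      apply closure_minimal _ ((isClosed_tsupport _).preimage hπc)
      intro v hv
      exact subset_tsupport (ρ w) hv
    intro v hv
    rw [← hOpre w]
    exact hρ w (h1 hv)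
  refine ⟨fun v => ∑ᶠ w, σ w v • (Q (v - w) / P (v - w)), ?_, ?_⟩
  · refine σ.continuous_finsum_smul ?_
    intro w v hv
    have hpos : 0 < P (v - w) := hσO w hv
    exact ContinuousAt.div (by fun_prop) (by fun_prop) hpos.ne'
  · intro v t
    show ∑ᶠ w, σ w (v + t • x) • (Q (v + t • x - w) / P (v + t • x - w))
      = (∑ᶠ w, σ w v • (Q (v - w) / P (v - w))) + t
    have h1 : ∀ w, σ w (v + t • x) • (Q (v + t • x - w) / P (v + t • x - w))
        = σ w v • (Q (v - w) / P (v - w)) + σ w v * t := by
      intro w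
      have e1 : σ w (v + t • x) = σ w v := by
        rw [hσ, hσ, hπx]
      have e2 : v + t • x - w = (v - w) + t • x := by abel
      rw [e1, e2, hPt, hQt]
      by_cases h : σ w v = 0
      · rw [h]
        simp
      · have hpos : 0 < P (v - w) := hσO w (subset_tsupport _ h)
        rw [add_div, mul_div_assoc, div_self hpos.ne', mul_one, smul_eq_mul, smul_eq_mul, mul_add]
    rw [finsum_congr h1]
    have hfin : (Function.support fun w => σ w v).Finite := σ.locallyFinite.point_finite v
    rw [finsum_add_distrib]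
    · congr 1
      rw [← finsum_mul' _ _ hfin, σ.sum_eq_one (mem_univ v), one_mul]
    · refine hfin.subset ?_
      intro w hw h
      apply hw
      show σ w v • (Q (v - w) / P (v - w)) = 0
      have h' : σ w v = 0 := h
      rw [h', zero_smul]
    · refine hfin.subset ?_
      intro w hw h
      apply hw
      show σ w v * t = 0
      have h' : σ w v = 0 := h
      rw [h', zero_mul]

end Pool.Agent.LSG.H7
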